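import Pool.Agent.MP_c69980_ag.H43.Spec3

/-!
The ring generated by the ratios inside the blocks is differentially simple.
-/

set_option autoImplicit false

namespace Pool.Agent.MP_c69980_ag.H43

open MvPolynomial H60 Finset

variable {t a M : ℕ}

lemma dsa_vf {k F : Subfield ℂ} {P : Fin (t + a) → CI M t → CP M t} (hP : ∀ i x, Cf k (P i x))
    (hk : k ≤ F) {g : Pt t a} (hg : ∀ i, g i ∈ F) (x : CI M t → ℂ) (φ : RA F x →ₐ[F] ℂ)
    (z : CI M t) (u : RA F x) (hu : (u : ℂ) = vf P g x z) :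
    φ u = vf P g (fun i => φ ⟨x i, gen_mem x i⟩) z := by
  have h1 : Cf F (∑ i, C (g i) * P i z) :=
    Cf.sum _ fun i _ => (cf_C (hg i)).mul ((hP i z).mono hk)
  rw [h1.map_eval le_rfl φ (fun i => ⟨x i, gen_mem x i⟩) u (by simp [hu, vf_eq])]
  simp [vf_eq]

theorem sDsa (h1 : SAm) (h2 : SInd) (h3 : SPres) (h4 : SLd) : SDsa := by
  intro t a M w Θ PP k F D p₀ g h hc β hβ I hI
  by_contra hn
  obtain ⟨hb, ht⟩ := not_or.1 hn
  have hP := h3 t a M w Θ PP k F D p₀ g h hc.le hc.tan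
  have hL : Pres D (FL F (Θ p₀)) :=
    hP.1 (fun i => le_FL _ _ (hc.mem i)) fun x hx => le_FL _ _ (hc.pres x hx)
  have hR : Pres D (RA F (xc w β (Θ p₀))) := (hP.2.2 hc.mem hc.pres β hβ).2
  have xL : ∀ x, xc w β (Θ p₀) x ∈ FL F (Θ p₀) := fun x => rat_FL _ _ (xc_mem w β _ x)
  have cL := FL_countable hc.cnt (Θ p₀)
  have cR : Countable (RA F (xc w β (Θ p₀))) :=
    Set.countable_coe_iff.2 ((Set.countable_coe_iff.1 cL).mono (RA_le_field (le_FL _ _) xL))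
  obtain ⟨φ, D', φI, hD⟩ := h1 F _ _ Unit (fun _ => D) (le_FL _ _) cL cR
    (fun _ => ⟨hc.pres, hL, hR⟩) I ht fun _ => hI D rfl
  obtain ⟨e1, e2⟩ := hD ()
  generalize D' () = E at e1 e2
  obtain ⟨p₁, -, c1, c2⟩ := h.norm β p₀ hβ
  obtain ⟨q, hq, eq⟩ := h.spec c1 (y := fun x => φ ⟨xc w β (Θ p₀) x, gen_mem _ x⟩) (by
    rw [c2]
    intro P hP h0
    rw [← hP.map_eval hc.le φ (fun i => ⟨_, gen_mem _ i⟩) 0 h0.symm, map_zero])
  have eq' : xc w β (Θ q) = fun x => φ ⟨xc w β (Θ p₀) x, gen_mem _ x⟩ :=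
    funext fun x => congrFun eq (x.1, w x.1)
  have kE : Kill k E := fun c hc' => (e1 c (le_FL _ _ (hc.le hc'))).trans (hc.kill c hc')
  obtain ⟨v, hv⟩ := h.ex E q kE
  have hA : ∀ i, (g - v) (Fin.natAdd t i) = 0 := by
    refine (h.immA β q _ hq).1 fun c => ?_
    have a1 := (h.tanA β E q v hq hv).1 (c, w c)
    have a2 := (h.tanA β D p₀ g hβ hc.tan).1 (c, w c)
    rw [vf_sub, ← a1, eq', sub_eq_zero]
    exact ((e2 ⟨_, gen_mem _ (c, w c)⟩ ⟨_, hR _ (gen_mem _ (c, w c))⟩ rfl).trans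
      (dsa_vf (h.cf β) hc.le hc.mem _ φ _ _ a2)).symm
  have tc : Tan Θ E (p₀ - q) (g - v) :=
    h.sub.2.2 E p₀ q g v kE (hc.tan.congr fun x hx => e1 x (rat_FL _ _ hx)) hv
  obtain ⟨β₁, hβ₁⟩ := h.ch (p₀ - q)
  obtain ⟨c', d1, d2, d3⟩ := h.norm β₁ _ hβ₁
  have k0 : ∀ x, E (co β₁ (Θ c') x) = 0 := fun x => by
    rw [d3, (h.tanA β₁ E _ _ hβ₁ tc).1 x]
    exact (h.immA β₁ _ _ hβ₁).2 hA x.1
  set F₁ := Subfield.closure (F ∪ {c | ∀ D ∈ ({E} : Set Der), D c = 0} : Set ℂ) with hF₁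
  have FF : F ≤ F₁ := fun x hx => Subfield.subset_closure (Or.inl hx)
  have r1 : rat (Θ c') ⊆ F₁ := by
    rintro _ ⟨c, b, rfl⟩
    refine Subfield.subset_closure (Or.inr ?_)
    rintro _ rfl
    rw [div_eq_co d2, Derivation.leibniz_div, k0, k0]
    simp
  have r2 : rat (Θ (0 - c')) ⊆ F₁ := (h.sub.2.1 0 c').trans (Subfield.closure_le.2
    (Set.union_subset (Set.union_subset (hc.le.trans FF) (h.sub.1.trans (hc.le.trans FF))) r1))
  set K := Subfield.closure (F₁ ∪ Set.range (co β (Θ q)) : Set ℂ) with hK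
  have FK : F₁ ≤ K := fun x hx => Subfield.subset_closure (Or.inl hx)
  have r3 : rat (Θ (q - (0 - c'))) ⊆ K := (h.sub.2.1 q _).trans (Subfield.closure_le.2
    (Set.union_subset (Set.union_subset (hc.le.trans (FF.trans FK))
      (hK ▸ FL_chart hq F₁ ▸ rat_FL F₁ _)) (r2.trans FK)))
  have r4 : ∀ x, xc w β (Θ p₀) x ∈ K := fun x => by
    rw [(h.same β p₀ (q - (0 - c')) (fun i => by simp [d1 i]) hβ).2]
    exact r3 (xc_mem w β _ x)
  obtain ⟨N, hN⟩ := h2.fin F _ (Set.finite_range (xc w β (Θ p₀)))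
  obtain ⟨n, z, -, z1, z2, z3, -⟩ := h2.max F N _ hN
  have z4 : AlgebraicIndependent F₁ z :=
    (h4 {E} (FL F (Θ p₀)) F (by rintro _ rfl x hx; rw [e1 x hx]; exact hL x hx) (le_FL _ _)
      (fun x hx h0 => hc.const x hx ((e1 x hx).symm.trans (h0 E rfl))) _ z z3).2
      fun i => by obtain ⟨x, e⟩ := z2 i; exact e ▸ xL x
  have z5 : Ind F₁ n (Set.range (co β (Θ q))) := h2.alg F₁ n _ ⟨z, fun i => by
    obtain ⟨x, e⟩ := z2 i
    exact e ▸ isAlgebraic_algebraMap (⟨_, r4 x⟩ : K), z4⟩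
  have z6 : Ind F n (Set.range φ) := z5.mono FF le_rfl (by
    rintro _ ⟨x, rfl⟩
    exact ⟨_, (congrFun eq x).symm⟩)
  obtain ⟨u, u1, u2⟩ := Submodule.exists_mem_ne_zero_of_ne_bot hb
  exact z1 ((h2.gen F _ _ _ φ).1 ((h2.hom F _ φ n z6).2 u u2 (φI u u1)))

end Pool.Agent.MP_c69980_ag.H43
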